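import Pool.Agent.J6H62.NC.Walk

/-!
# NC-START: independent good events
-/

set_option autoImplicit false

open MeasureTheory ProbabilityTheory Filter Topology
open scoped ENNReal

namespace Pool.Agent.J6H62.NC

open Pool.Agent.J6H99.NC

variable {e : ℕ}

/-! ### boxes of pairs -/

/-- the box around a lattice point -/
noncomputable def box (x : V e) (R : ℕ) : Finset (V e) :=
  Fintype.piFinset fun i => Finset.Icc (x i - R) (x i + R)

lemma card_box (x : V e) (R : ℕ) : (box x R).card = (2 * R + 1) ^ (e + 2) := by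
  unfold box
  rw [Fintype.card_piFinset]
  have h : ∀ i : Fin (e + 2), (Finset.Icc (x i - R) (x i + R)).card = 2 * R + 1 := by
    intro i
    rw [Int.card_Icc]
    omega
  rw [Finset.prod_congr rfl fun i _ => h i, Finset.prod_const, Finset.card_univ,
    Fintype.card_fin]

lemma mem_box {x y : V e} {R : ℕ} (h : n1 (y - x) ≤ R) : y ∈ box x R := by
  unfold box
  rw [Fintype.mem_piFinset]
  intro i
  have h1 := abs_le.1 ((coord_le_n1 (y - x) i).trans h)
  rw [Pi.sub_apply] at h1
  rw [Finset.mem_Icc]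
  omega

/-! ### product events -/

lemma prob_pi (F : Measure ℝ) [IsProbabilityMeasure F] (S : Finset (Sym2 (V e)))
    (t : Sym2 (V e) → Set ℝ) (ht : ∀ s, MeasurableSet (t s)) {p : ℝ} (hp : 0 ≤ p)
    (hpt : ∀ s, p ≤ F.real (t s)) :
    p ^ S.card ≤ (PM e F).real (Set.pi (S : Set (Sym2 (V e))) t) := by
  unfold PM
  rw [measureReal_def, Measure.infinitePi_pi _ (fun s _ => ht s), ENNReal.toReal_prod]
  rw [← Finset.prod_const]
  exact Finset.prod_le_prod (fun _ _ => hp) fun s _ => hpt s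

lemma meas_pi (A : Set (Sym2 (V e))) (S : Finset (Sym2 (V e))) (hS : ∀ s ∈ S, s ∈ A)
    (t : Sym2 (V e) → Set ℝ) (ht : ∀ s, MeasurableSet (t s)) :
    MeasurableSet[MS A] (Set.pi (S : Set (Sym2 (V e))) t : Set (Om e)) := by
  have h : (Set.pi (S : Set (Sym2 (V e))) t : Set (Om e)) =
      ⋂ s ∈ S, (fun ω : Om e => ω s) ⁻¹' (t s) := by
    ext ω
    simp [Set.mem_pi]
  rw [h]
  refine @MeasurableSet.biInter _ _ (MS A) _ _ (Finset.countable_toSet S) fun s hs => ?_
  exact measurable_eval (hS s hs) (ht s)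

/-! ### the number of good events -/

theorem count (F : Measure ℝ) [IsProbabilityMeasure F] (A : ℕ → Set (Sym2 (V e)))
    (hA : ∀ i j, i ≠ j → Disjoint (A i) (A j)) (G : ℕ → Set (Om e))
    (hG : ∀ j, MeasurableSet[MS (A j)] (G j)) {p0 : ℝ} (hp0 : 0 < p0)
    (hp : ∀ j, p0 ≤ (PM e F).real (G j)) {N : ℕ} (hN : 1 ≤ N) :
    (PM e F).real {ω | ∑ j ∈ Finset.range N, (G j).indicator (fun _ => (1 : ℝ)) ω ≤ p0 * N / 2} ≤
      4 / (p0 ^ 2 * N) := by
  have hG' : ∀ j, MeasurableSet (G j) := fun j => MS_le _ _ (hG j)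
  set X : ℕ → Om e → ℝ := fun j => (G j).indicator fun _ => (1 : ℝ) with hX
  have hXm : ∀ j, Measurable (X j) := fun j => measurable_const.indicator (hG' j)
  have hX1 : ∀ j ω, |X j ω| ≤ 1 := by
    intro j ω
    simp only [hX, Set.indicator]
    split_ifs <;> simp
  have hL : ∀ j, MemLp (X j) 2 (PM e F) := fun j =>
    MemLp.of_bound (hXm j).aestronglyMeasurable 1 (Eventually.of_forall fun ω => hX1 j ω)
  have hind : ∀ i j, i ≠ j → IndepFun (X i) (X j) (PM e F) := by
    intro i j hij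
    have h1 := indep_MS F (hA i j hij)
    have m1 : Measurable[MS (A i)] (X i) := (@measurable_const _ _ _ (MS (A i)) _).indicator (hG i)
    have m2 : Measurable[MS (A j)] (X j) := (@measurable_const _ _ _ (MS (A j)) _).indicator (hG j)
    exact indep_of_indep_of_le_left (indep_of_indep_of_le_right h1 m2.comap_le) m1.comap_le
  have hint : ∀ j, ∫ ω, X j ω ∂(PM e F) = (PM e F).real (G j) := by
    intro j
    simp only [hX]
    rw [integral_indicator_const _ (hG' j)]
    simp
  have hvar : ∀ j, Var[X j; PM e F] ≤ 1 := by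
    intro j
    refine (variance_le_expectation_sq (hXm j).aestronglyMeasurable).trans ?_
    have h1 : ∀ ω, (X j ^ 2) ω ≤ 1 := by
      intro ω
      rw [Pi.pow_apply, ← sq_abs]
      exact pow_le_one₀ (abs_nonneg _) (hX1 j ω)
    calc ∫ ω, (X j ^ 2) ω ∂(PM e F) ≤ ∫ _, (1 : ℝ) ∂(PM e F) :=
          integral_mono (hL j).integrable_sq (integrable_const _) h1
      _ = 1 := by simp
  have hvs : Var[∑ j ∈ Finset.range N, X j; PM e F] ≤ N := by
    rw [IndepFun.variance_sum (fun j _ => hL j) (fun i _ j _ hij => hind i j hij)]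
    calc ∑ j ∈ Finset.range N, Var[X j; PM e F] ≤ ∑ _j ∈ Finset.range N, (1 : ℝ) :=
          Finset.sum_le_sum fun j _ => hvar j
      _ = N := by simp
  have hm : p0 * N ≤ ∫ ω, (∑ j ∈ Finset.range N, X j) ω ∂(PM e F) := by
    have : ∫ ω, (∑ j ∈ Finset.range N, X j) ω ∂(PM e F) =
        ∑ j ∈ Finset.range N, (PM e F).real (G j) := by
      simp only [Finset.sum_apply]
      rw [integral_finsetSum _ fun j _ => (hL j).integrable (by norm_num)]
      exact Finset.sum_congr rfl fun j _ => hint j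
    rw [this]
    calc p0 * N = ∑ _j ∈ Finset.range N, p0 := by simp [mul_comm]
      _ ≤ _ := Finset.sum_le_sum fun j _ => hp j
  have hN0 : (0 : ℝ) < N := by exact_mod_cast hN
  have hc : 0 < p0 * N / 2 := by positivity
  have hch := meas_ge_le_variance_div_sq (μ := PM e F) (X := ∑ j ∈ Finset.range N, X j)
    (memLp_finsetSum' _ fun j _ => hL j) hc
  have hsub : {ω | ∑ j ∈ Finset.range N, (G j).indicator (fun _ => (1 : ℝ)) ω ≤ p0 * N / 2} ⊆
      {ω | p0 * N / 2 ≤ |(∑ j ∈ Finset.range N, X j) ω -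
        ∫ ω, (∑ j ∈ Finset.range N, X j) ω ∂(PM e F)|} := by
    intro ω hω
    simp only [Set.mem_ofPred_eq] at hω ⊢
    rw [abs_sub_comm]
    refine le_trans ?_ (le_abs_self _)
    rw [Finset.sum_apply]
    linarith
  rw [measureReal_def]
  refine ENNReal.toReal_le_of_le_ofReal (by positivity) ?_
  refine (measure_mono hsub).trans (hch.trans (ENNReal.ofReal_le_ofReal ?_))
  rw [div_le_div_iff₀ (by positivity) (by positivity)]
  have h1 : p0 ^ 2 * N * Var[∑ j ∈ Finset.range N, X j; PM e F] ≤ p0 ^ 2 * N * N :=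
    mul_le_mul_of_nonneg_left hvs (by positivity)
  nlinarith

end Pool.Agent.J6H62.NC
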