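import Pool.Agent.J6H99.NC.Stm

/-!
# NC-START: walks near a line, cutting walks at levels
-/

set_option autoImplicit false

open MeasureTheory ProbabilityTheory Filter Topology
open scoped ENNReal

namespace Pool.Agent.J6H62.NC

open Pool.Agent.J6H99.NC

variable {e : ℕ}

/-! ### monotone chains -/

lemma n1_add_mono {a b c : V e}
    (h : ∀ i, (a i ≤ b i ∧ b i ≤ c i) ∨ (c i ≤ b i ∧ b i ≤ a i)) :
    n1 (c - a) = n1 (b - a) + n1 (c - b) := by
  unfold n1
  rw [← Finset.sum_add_distrib]
  refine Finset.sum_congr rfl fun i _ => ?_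
  simp only [Pi.sub_apply]
  rcases h i with ⟨h1, h2⟩ | ⟨h1, h2⟩
  · rw [abs_of_nonneg (by omega), abs_of_nonneg (by omega), abs_of_nonneg (by omega)]
    ring
  · rw [abs_of_nonpos (by omega), abs_of_nonpos (by omega), abs_of_nonpos (by omega)]
    ring

lemma chain_walk (P : ℕ → V e)
    (hP : ∀ i, (∀ k, P k i ≤ P (k + 1) i) ∨ (∀ k, P (k + 1) i ≤ P k i)) (n : ℕ) :
    ∃ p : (lat e).Walk (P 0) (P n), (p.length : ℤ) = n1 (P n - P 0) ∧
      ∀ v ∈ p.support, ∃ k, k ≤ n ∧ n1 (v - P k) ≤ n1 (P (k + 1) - P k) := by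
  induction n with
  | zero =>
    refine ⟨SimpleGraph.Walk.nil, by simp, ?_⟩
    intro v hv
    rw [SimpleGraph.Walk.support_nil, List.mem_singleton] at hv
    subst hv
    exact ⟨0, le_rfl, by rw [sub_self, n1_zero]; exact n1_nonneg _⟩
  | succ n ih =>
    obtain ⟨p, hp1, hp2⟩ := ih
    obtain ⟨r, hr⟩ := exists_walk_len (P n) (P (n + 1))
    refine ⟨p.append r, ?_, ?_⟩
    · rw [SimpleGraph.Walk.length_append]
      push_cast
      rw [hp1, hr]
      symm
      refine n1_add_mono fun i => ?_
      rcases hP i with h | h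
      · left
        exact ⟨monotone_nat_of_le_succ (f := fun k => P k i) h (Nat.zero_le n), h n⟩
      · right
        exact ⟨h n, antitone_nat_of_succ_le (f := fun k => P k i) h (Nat.zero_le n)⟩
    · intro v hv
      rw [SimpleGraph.Walk.mem_support_append_iff] at hv
      rcases hv with hv | hv
      · obtain ⟨k, hk1, hk2⟩ := hp2 v hv
        exact ⟨k, by omega, hk2⟩
      · refine ⟨n, by omega, ?_⟩
        rw [← hr]
        exact n1_le_of_mem r hv

/-- a shortest walk near a segment of the line `A v + s u + ℝ v` -/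
lemma line_walk (v u : E e) (A s : ℝ) (n : ℕ) :
    ∃ p : (lat e).Walk (rnd (A • v + s • u)) (rnd ((A + n) • v + s • u)),
      (p.length : ℝ) ≤ n * nr v + 2 * ((e : ℝ) + 2) ∧
      ∀ x ∈ p.support, ∃ t : ℝ, A ≤ t ∧ t ≤ A + n ∧
        nr (vc x - (t • v + s • u)) ≤ nr v + 3 * ((e : ℝ) + 2) := by
  set P : ℕ → V e := fun k => rnd ((A + k) • v + s • u) with hP
  have hmono : ∀ i, (∀ k, P k i ≤ P (k + 1) i) ∨ (∀ k, P (k + 1) i ≤ P k i) := by
    intro i
    rcases le_total 0 (v i) with h | h
    · left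
      intro k
      simp only [hP, rnd]
      apply Int.floor_le_floor
      simp only [Pi.add_apply, Pi.smul_apply, smul_eq_mul]
      push_cast
      nlinarith
    · right
      intro k
      simp only [hP, rnd]
      apply Int.floor_le_floor
      simp only [Pi.add_apply, Pi.smul_apply, smul_eq_mul]
      push_cast
      nlinarith
  obtain ⟨p, hp1, hp2⟩ := chain_walk P hmono n
  have e0 : P 0 = rnd (A • v + s • u) := by simp [hP]
  have en : P n = rnd ((A + n) • v + s • u) := rfl
  refine ⟨p.copy e0 en, ?_, ?_⟩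
  · rw [SimpleGraph.Walk.length_copy]
    have h1 : (p.length : ℝ) = (n1 (P n - P 0) : ℝ) := by exact_mod_cast hp1
    rw [h1, e0, en]
    refine (n1_rnd_sub_le _ _).trans ?_
    have h2 : (A + n) • v + s • u - (A • v + s • u) = (n : ℝ) • v := by
      rw [add_sub_add_right_eq_sub, ← sub_smul, add_sub_cancel_left]
    rw [h2, nr_smul, abs_of_nonneg (Nat.cast_nonneg n)]
  · intro x hx
    rw [SimpleGraph.Walk.support_copy] at hx
    obtain ⟨k, hk1, hk2⟩ := hp2 x hx
    refine ⟨A + k, by linarith [Nat.cast_nonneg (α := ℝ) k],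
      by have : (k : ℝ) ≤ n := by exact_mod_cast hk1
         linarith, ?_⟩
    have h1 : (n1 (x - P k) : ℝ) ≤ n1 (P (k + 1) - P k) := by exact_mod_cast hk2
    have h2 : (n1 (P (k + 1) - P k) : ℝ) ≤ nr v + 2 * ((e : ℝ) + 2) := by
      refine (n1_rnd_sub_le _ _).trans ?_
      have h3 : (A + ((k + 1 : ℕ) : ℝ)) • v + s • u - ((A + k) • v + s • u) = v := by
        rw [add_sub_add_right_eq_sub, ← sub_smul]
        push_cast
        rw [show A + ((k : ℝ) + 1) - (A + k) = 1 by ring, one_smul]
      rw [h3]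
    have h4 : nr (vc (P k) - ((A + k) • v + s • u)) ≤ (e : ℝ) + 2 := nr_rnd_sub _
    have h5 := nr_tri (vc x) (vc (P k)) ((A + k) • v + s • u)
    rw [← vc_sub, nr_vc] at h5
    linarith

/-! ### cutting walks -/

lemma cut_last (P : V e → Prop) : ∀ {x z : V e} (p : (lat e).Walk x z), ¬ P z →
    (∀ v ∈ p.support, ¬ P v) ∨ ∃ (x' y' : V e) (p1 : (lat e).Walk x x') (h : (lat e).Adj x' y')
      (p2 : (lat e).Walk y' z), p = p1.append (SimpleGraph.Walk.cons h p2) ∧ P x' ∧
        ∀ v ∈ p2.support, ¬ P v := by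
  intro x z p
  induction p with
  | nil =>
    intro hz
    left
    intro v hv
    rw [SimpleGraph.Walk.support_nil, List.mem_singleton] at hv
    rw [hv]
    exact hz
  | @cons x y z h p ih =>
    intro hz
    rcases ih hz with h1 | ⟨x', y', p1, h', p2, h1, h2, h3⟩
    · by_cases hx : P x
      · right
        exact ⟨x, y, SimpleGraph.Walk.nil, h, p, rfl, hx, h1⟩
      · left
        intro v hv
        rw [SimpleGraph.Walk.support_cons, List.mem_cons] at hv
        rcases hv with rfl | hv
        · exact hx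
        · exact h1 v hv
    · right
      exact ⟨x', y', SimpleGraph.Walk.cons h p1, h', p2, by rw [h1]; rfl, h2, h3⟩

lemma cut_first (Q : V e → Prop) : ∀ {x z : V e} (p : (lat e).Walk x z), Q z →
    ∃ (y : V e) (p1 : (lat e).Walk x y) (p2 : (lat e).Walk y z), p = p1.append p2 ∧ Q y ∧
      (∀ v ∈ p1.support, v = y ∨ ¬ Q v) ∧ (y = x ∨ ∃ v, ¬ Q v ∧ (lat e).Adj v y) := by
  intro x z p
  induction p with
  | @nil x =>
    intro hz
    refine ⟨x, SimpleGraph.Walk.nil, SimpleGraph.Walk.nil, rfl, hz, ?_, Or.inl rfl⟩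
    intro v hv
    rw [SimpleGraph.Walk.support_nil, List.mem_singleton] at hv
    exact Or.inl hv
  | @cons x y z h p ih =>
    intro hz
    by_cases hx : Q x
    · refine ⟨x, SimpleGraph.Walk.nil, SimpleGraph.Walk.cons h p, rfl, hx, ?_, Or.inl rfl⟩
      intro v hv
      rw [SimpleGraph.Walk.support_nil, List.mem_singleton] at hv
      exact Or.inl hv
    · obtain ⟨y', p1, p2, h1, h2, h3, h4⟩ := ih hz
      refine ⟨y', SimpleGraph.Walk.cons h p1, p2, by rw [h1]; rfl, h2, ?_, ?_⟩
      · intro v hv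
        rw [SimpleGraph.Walk.support_cons, List.mem_cons] at hv
        rcases hv with rfl | hv
        · exact Or.inr hx
        · exact h3 v hv
      · right
        rcases h4 with rfl | ⟨v, hv1, hv2⟩
        · exact ⟨x, hx, h⟩
        · exact ⟨v, hv1, hv2⟩

lemma lf_adj (c : E e) {x y : V e} (h : (lat e).Adj x y) : |lf c x - lf c y| ≤ nr c := by
  have h1 := abs_lf_sub_le c x y
  have h2 : n1 (x - y) = 1 := h
  rw [h2] at h1
  simpa using h1

/-- the part of a walk that crosses the levels between `A` and `B` -/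
lemma block {c : E e} {m A B : ℝ} (hm : nr c ≤ m) (hAB : A + m < B - m) {x z : V e}
    (p : (lat e).Walk x z) (hx : lf c x ≤ A + m) (hz : B - m ≤ lf c z) :
    ∃ (x' y' : V e) (p1 : (lat e).Walk x x') (p2 : (lat e).Walk x' y') (p3 : (lat e).Walk y' z),
      p = p1.append (p2.append p3) ∧ A ≤ lf c x' ∧ lf c x' ≤ A + m ∧ B - m ≤ lf c y' ∧
      lf c y' ≤ B ∧ Uses p2 (Slab c A B) := by
  have hm0 := nr_nonneg c
  rcases cut_last (fun v => lf c v ≤ A + m) p (by push Not; linarith) with
    h1 | ⟨x', y0, p1, h, p2, h1, h2, h3⟩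
  · exact absurd hx (h1 x p.start_mem_support)
  · obtain ⟨y', r1, r2, g1, g2, g3, g4⟩ :=
      cut_first (fun v => B - m ≤ lf c v) (SimpleGraph.Walk.cons h p2) hz
    have hy0 : A + m < lf c y0 := by
      have := h3 y0 p2.start_mem_support
      push Not at this
      exact this
    have hxx := abs_le.1 (lf_adj c h)
    have hx' : A ≤ lf c x' := by linarith
    have hy' : lf c y' ≤ B := by
      rcases g4 with rfl | ⟨v, hv1, hv2⟩
      · linarith
      · push Not at hv1
        have := abs_le.1 (lf_adj c hv2)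
        linarith
    refine ⟨x', y', p1, r1, r2, by rw [← g1]; exact h1, hx', h2, g2, hy', ?_⟩
    have hA : ∀ v ∈ r1.support, A ≤ lf c v := by
      intro v hv
      have hv' : v ∈ (SimpleGraph.Walk.cons h p2).support := by
        rw [g1, SimpleGraph.Walk.mem_support_append_iff]
        exact Or.inl hv
      rw [SimpleGraph.Walk.support_cons, List.mem_cons] at hv'
      rcases hv' with rfl | hv'
      · exact hx'
      · have := h3 v hv'
        push Not at this
        linarith
    intro s hs
    refine ⟨edges_EIn hA s hs, ?_⟩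
    induction s with
    | _ a b =>
      have hab := r1.adj_of_mem_edges hs
      by_cases ha : a = y'
      · have hb : b ≠ y' := fun hb => hab.ne (ha.trans hb.symm)
        have hb' := (g3 b (r1.snd_mem_support_of_mem_edges hs)).resolve_left hb
        push Not at hb'
        exact ⟨b, Sym2.mem_mk_right a b, by linarith⟩
      · have ha' := (g3 a (r1.fst_mem_support_of_mem_edges hs)).resolve_left ha
        push Not at ha'
        exact ⟨a, Sym2.mem_mk_left a b, by linarith⟩

/-- gains in the blocks add up -/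
lemma multi (q : Par) (ω : Om e) {c : E e} {m L : ℝ} (hm : nr c ≤ m) (hL : 2 * m < L) {N : ℕ}
    {z : V e} (hz : N * L - m ≤ lf c z) (R : Set (Sym2 (V e))) (G : ℕ → Prop)
    [DecidablePred G]
    (hG : ∀ j, j < N → G j → ∀ (x y : V e) (p : (lat e).Walk x y),
      Uses p (R ∩ Slab c (j * L) ((j + 1) * L)) →
      j * L ≤ lf c x → lf c x ≤ j * L + m → (j + 1) * L - m ≤ lf c y → lf c y ≤ (j + 1) * L →
      T q ω x y + 1 ≤ cost q ω p) :
    ∀ n j : ℕ, j + n = N → ∀ (x : V e) (p : (lat e).Walk x z), Uses p R → lf c x ≤ j * L + m →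
      T q ω x z + ∑ i ∈ Finset.Ico j N, (if G i then (1 : ℝ) else 0) ≤ cost q ω p := by
  have hm0 := nr_nonneg c
  intro n
  induction n with
  | zero =>
    intro j hj x p _ _
    have : j = N := by omega
    rw [this, Finset.Ico_self, Finset.sum_empty, add_zero]
    exact T_le q ω p
  | succ n ih =>
    intro j hj x p hp hx
    have hjN : j < N := by omega
    have hz' : ((j : ℝ) + 1) * L - m ≤ lf c z := by
      have h1 : ((j : ℝ) + 1) ≤ N := by exact_mod_cast hjN
      have h2 : ((j : ℝ) + 1) * L ≤ N * L := mul_le_mul_of_nonneg_right h1 (by linarith)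
      linarith
    obtain ⟨x', y', p1, p2, p3, h1, h2, h3, h4, h5, h6⟩ :=
      block (A := j * L) (B := (j + 1) * L) hm (by linarith) p hx hz'
    have u1 : Uses p1 R := fun s hs => hp s (by
      rw [h1, SimpleGraph.Walk.edges_append, List.mem_append]; exact Or.inl hs)
    have u2 : Uses p2 R := fun s hs => hp s (by
      rw [h1, SimpleGraph.Walk.edges_append, List.mem_append, SimpleGraph.Walk.edges_append,
        List.mem_append]; exact Or.inr (Or.inl hs))
    have u3 : Uses p3 R := fun s hs => hp s (by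
      rw [h1, SimpleGraph.Walk.edges_append, List.mem_append, SimpleGraph.Walk.edges_append,
        List.mem_append]; exact Or.inr (Or.inr hs))
    have i1 := ih (j + 1) (by omega) y' p3 u3 (by push_cast; linarith)
    have t1 := T_tri q ω x x' z
    have t2 := T_tri q ω x' y' z
    have t3 := T_le q ω p1
    have c1 : cost q ω p = cost q ω p1 + (cost q ω p2 + cost q ω p3) := by
      rw [h1, cost_append, cost_append]
    rw [Finset.sum_eq_sum_Ico_succ_bot hjN]
    by_cases hg : G j
    · rw [if_pos hg]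
      have := hG j hjN hg x' y' p2 (fun s hs => ⟨u2 s hs, h6 s hs⟩) h2 h3 h4 h5
      linarith
    · rw [if_neg hg]
      have := T_le q ω p2
      linarith

end Pool.Agent.J6H62.NC
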